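import Pool.Agent.H45.KC.KKum
import Pool.Agent.H45.KC.KCount
import Pool.Agent.H45.KC.QCore

/-!
# Project FD, module KumG: Kummer's relations for any solution, at the places prime to `a b c`

`a^p + b^p + c^p = 0` in `𝓞 K`, `a, b, c` without common prime factor above `p`, `ψ` a reduction
family in characteristic `p`, `Z = ZZ ψ a b c` the set of the `k` at which none of `ψ_k a`, `ψ_k b`,
`ψ_k c` vanishes, `s_k = - ψ_k b / ψ_k a`.  The norm form `nf K a b` reduces to
`∏ (ψ_k a + X ψ_k b)`; the factors with `ψ_k c = 0` are constants times `X - 1`, those with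
`ψ_k a = 0` are constants times `X`, those with `ψ_k b = 0` are constants.  The logarithmic
derivatives of order `≥ 2` of `X` and of the constants are `0`, and the factor `(X - 1)^μ`,
`μ = mm K p c`, is removed in `H45KC.kdl`.  So the relations of index `i ≥ μ + 2` hold with the sum
restricted to `Z`.  `DatG` collects the properties of the `s_k`; with `μ = 0`, `Z` everything, it is
`H10CQ.Dat`.
-/

open Polynomial NumberField H9FC H45KC

namespace H77FD

/-- the known properties of the values `s_k`, `k ∈ Z` -/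
structure DatG (p e : ℕ) {Ω ι : Type*} [Field Ω] (Z : Finset ι) (s : ι → Ω) : Prop where
  ne0 : ∀ k ∈ Z, s k ≠ 0
  ne1 : ∀ k ∈ Z, s k ≠ 1
  l1 : ∀ k ∈ Z, H10CQ.el p 1 (s k) = 0
  kum : ∀ i, Even i → 2 ≤ i → e + 2 ≤ i → i + 3 ≤ p → ¬ (p : ℤ) ∣ (_root_.bernoulli i).num →
    ∑ k ∈ Z, H10CQ.el p i (s k) / (1 - s k ^ p) = 0
  frob : ∑ k ∈ Z, 1 / (1 - s k) = ∑ k ∈ Z, 1 / (1 - s k ^ p)

private theorem KumG_mult {Ω : Type*} [Field Ω] (m n : ℕ) (A B : Polynomial Ω) (hA : A.eval 1 ≠ 0)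
    (hB : B.eval 1 ≠ 0) (h : (X - 1) ^ m * A = (X - 1) ^ n * B) : m = n ∧ A = B := by
  have hX : (X - 1 : Polynomial Ω) ≠ 0 := by
    have := X_sub_C_ne_zero (1 : Ω)
    rwa [C_1] at this
  have key : ∀ (m k : ℕ) (A B : Polynomial Ω), A.eval 1 ≠ 0 →
      (X - 1) ^ m * A = (X - 1) ^ (m + (k + 1)) * B → False := by
    intro m k A B hA h
    rw [pow_add, mul_assoc] at h
    have h1 := mul_left_cancel₀ (pow_ne_zero m hX) h
    apply hA
    rw [h1, eval_mul, eval_pow, eval_sub, eval_X, eval_one, sub_self, zero_pow (by omega), zero_mul]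
  rcases lt_trichotomy m n with h1 | h1 | h1
  · obtain ⟨k, rfl⟩ := Nat.exists_eq_add_of_lt h1
    exact (key m k A B hA (by rw [h]; congr 2)).elim
  · subst h1
    exact ⟨rfl, mul_left_cancel₀ (pow_ne_zero m hX) h⟩
  · obtain ⟨k, rfl⟩ := Nat.exists_eq_add_of_lt h1
    exact (key n k B A hB (by rw [← h]; congr 2)).elim

private theorem KumG_DL_one {Ω : Type*} [Field Ω] (a b : Ω) :
    DL 1 (C a + X * C b : Polynomial Ω) = b / (a + b) := by
  rw [DL]
  simp only [Nat.sub_self, Nm, th, pow_one]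
  simp only [eval_mul, eval_X, one_mul, eval_add, eval_C, derivative_add, derivative_C,
    derivative_mul, derivative_X, mul_zero, add_zero, zero_add]

section
variable {K : Type*} [Field K] [NumberField K] {p : ℕ} [Fact p.Prime] {a b c : 𝓞 K}
  {Ω : Type*} [Field Ω] [CharP Ω p] {ψ : Fin (Module.finrank ℚ K) → (𝓞 K →+* Ω)}

private theorem KumG_ab (h : FSol K p a b c) (k : Fin (Module.finrank ℚ K)) (hc : ψ k c ≠ 0) :
    ψ k a + ψ k b ≠ 0 := by
  intro h0
  have h1 := fsol_hom h (ψ k)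
  rw [h0, zero_add] at h1
  exact hc h1

open Classical in
/-- the norm form modulo `p` and its part prime to `X - 1` -/
theorem nf_fact (h : FSol K p a b c) (hcp : CopAt K p a b c) (hψ : IsRedFam ψ) :
    ∃ (P : ℤ[X]) (u : Ω), u ≠ 0 ∧ ¬ (p : ℤ) ∣ P.eval 1 ∧
      (nf K a b).map (Int.castRingHom (ZMod p))
        = (X - 1) ^ (mm K p c) * P.map (Int.castRingHom (ZMod p)) ∧
      P.map (Int.castRingHom Ω)
        = C u * ∏ k ∈ Finset.univ.filter (fun k => ψ k c ≠ 0), (C (ψ k a) + X * C (ψ k b)) := by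
  obtain ⟨μ, P, -, -, hP1, hFP⟩ := exists_fact p (nf K a b) (Module.finrank ℚ K)
    (nf_natDegree_le K a b) (nf_map_ne_zero K p a b c h hcp)
  obtain ⟨g, hg⟩ : ∃ g : ZMod p →+* Ω, g = ZMod.castHom (dvd_refl p) Ω := ⟨_, rfl⟩
  have hgg : g.comp (Int.castRingHom (ZMod p)) = Int.castRingHom Ω := RingHom.ext_int _ _
  have hF : (nf K a b).map (Int.castRingHom Ω) = (X - 1) ^ μ * P.map (Int.castRingHom Ω) := by
    rw [← hgg, ← Polynomial.map_map, hFP, Polynomial.map_mul, Polynomial.map_pow,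
      Polynomial.map_sub, Polynomial.map_X, Polynomial.map_one, Polynomial.map_map, hgg]
  have hPe : (P.map (Int.castRingHom Ω)).eval 1 ≠ 0 := by
    rw [eval_map, eval₂_at_one]
    intro h0
    exact hP1 ((CharP.intCast_eq_zero_iff Ω p _).1 h0)
  have hcard : (Finset.univ.filter (fun k => ψ k c = 0)).card = mm K p c := by
    rw [← card_zero_eq_mm p hψ c, Nat.card_eq_fintype_card, Fintype.card_subtype]
  set R : Polynomial Ω := ∏ k ∈ Finset.univ.filter (fun k => ψ k c ≠ 0), (C (ψ k a) + X * C (ψ k b))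
    with hR
  set u : Ω := ∏ k ∈ Finset.univ.filter (fun k => ψ k c = 0), (-(ψ k a)) with hu
  have hu0 : u ≠ 0 := by
    rw [hu]
    refine Finset.prod_ne_zero_iff.2 fun k hk => ?_
    rw [Finset.mem_filter] at hk
    have h1 := (cop_hom h hcp (ψ k)).2.2
    exact neg_ne_zero.2 fun h2 => h1 ⟨hk.2, h2⟩
  have hprod : ∏ k, (C (ψ k a) + X * C (ψ k b) : Polynomial Ω) = (X - 1) ^ (mm K p c) * (C u * R) := by
    rw [← Finset.prod_filter_mul_prod_filter_not Finset.univ (fun k => ψ k c = 0), ← mul_assoc]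
    congr 1
    rw [← hcard, hu, map_prod, ← Finset.prod_const, ← Finset.prod_mul_distrib]
    refine Finset.prod_congr rfl fun k hk => ?_
    rw [Finset.mem_filter] at hk
    have h1 := fsol_hom h (ψ k)
    rw [hk.2, add_zero] at h1
    have h2 : ψ k b = - ψ k a := by linear_combination h1
    rw [h2, C_neg]
    ring
  have hRe : (C u * R).eval 1 ≠ 0 := by
    rw [eval_mul, eval_C, hR, eval_prod]
    refine mul_ne_zero hu0 (Finset.prod_ne_zero_iff.2 fun k hk => ?_)
    rw [Finset.mem_filter] at hk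
    simp only [eval_add, eval_C, eval_mul, eval_X, one_mul]
    exact KumG_ab h k hk.2
  have hfac := hψ a b
  rw [hprod, hF] at hfac
  obtain ⟨h1, h2⟩ := KumG_mult _ _ _ _ hPe hRe hfac
  refine ⟨P, u, hu0, hP1, ?_, h2⟩
  rw [← h1]
  exact hFP

open Classical in
private theorem KumG_DL (h : FSol K p a b c) {P : ℤ[X]} {u : Ω} (hu : u ≠ 0)
    (hP : P.map (Int.castRingHom Ω)
        = C u * ∏ k ∈ Finset.univ.filter (fun k => ψ k c ≠ 0), (C (ψ k a) + X * C (ψ k b)))
    (j : ℕ) (hj : 1 ≤ j) :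
    ZMod.castHom (dvd_refl p) Ω (DL j (P.map (Int.castRingHom (ZMod p))))
      = ∑ k ∈ Finset.univ.filter (fun k => ψ k c ≠ 0), DL j (C (ψ k a) + X * C (ψ k b)) := by
  obtain ⟨g, hg⟩ : ∃ g : ZMod p →+* Ω, g = ZMod.castHom (dvd_refl p) Ω := ⟨_, rfl⟩
  have hgg : g.comp (Int.castRingHom (ZMod p)) = Int.castRingHom Ω := RingHom.ext_int _ _
  have hne : ∀ k ∈ Finset.univ.filter (fun k => ψ k c ≠ 0),
      (C (ψ k a) + X * C (ψ k b) : Polynomial Ω).eval 1 ≠ 0 := by
    intro k hk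
    rw [Finset.mem_filter] at hk
    simp only [eval_add, eval_C, eval_mul, eval_X, one_mul]
    exact KumG_ab h k hk.2
  rw [← hg, ← DL_map, Polynomial.map_map, hgg, hP, DL_mul j hj _ _ (by simpa using hu) (by
    rw [eval_prod]
    exact Finset.prod_ne_zero_iff.2 hne), DL_C j hj, zero_add]
  have h1 := DL_prod j hj (Finset.univ.filter (fun k => ψ k c ≠ 0))
    (fun k => (C (ψ k a) + X * C (ψ k b) : Polynomial Ω)) (fun _ => 1) hne
  simp only [pow_one, Nat.cast_one, one_mul] at h1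
  exact h1

open Classical in
private theorem KumG_sub : ZZ ψ a b c ⊆ Finset.univ.filter (fun k => ψ k c ≠ 0) := by
  intro k hk
  rw [mem_ZZ] at hk
  rw [Finset.mem_filter]
  exact ⟨Finset.mem_univ _, hk.2.2⟩

private theorem KumG_lin (i j : ℕ) (hj : 2 ≤ j) (hp : p = i + j) (x y : Ω) (hx : x ≠ 0)
    (hxy : x + y ≠ 0) :
    DL j (C x + X * C y : Polynomial Ω) = - (fl p i (- y / x) / (1 - (- y / x) ^ p)) := by
  have hpp : p.Prime := Fact.out
  have hs1 : - y / x ≠ 1 := by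
    intro h1
    rw [div_eq_iff hx, one_mul] at h1
    exact hxy (by rw [← h1]; ring)
  have hlin : (C x + X * C y : Polynomial Ω) = C x * (1 - C (- y / x) * X) := by
    have h1 : C x * C (- y / x) = - C y := by
      rw [← C_mul, mul_div_cancel₀ _ hx, C_neg]
    linear_combination X * h1
  rw [hlin, DL_mul j (by omega) _ _ (by simpa using hx) (by
      simp only [eval_mul, eval_C, eval_sub, eval_one, eval_X, mul_one]
      exact sub_ne_zero.mpr (Ne.symm hs1)), DL_C j (by omega), zero_add,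
      DL_lin p _ hs1 j hj]
  have h3 : ∑ m ∈ Finset.Ioo 0 p, (m : Ω) ^ (j - 1) * (- y / x) ^ m = fl p i (- y / x) := by
    rw [fl]
    refine Finset.sum_congr rfl fun m hm => ?_
    rw [Finset.mem_Ioo] at hm
    have hm0 : (m : Ω) ≠ 0 := by
      intro h0
      rw [CharP.cast_eq_zero_iff Ω p] at h0
      exact absurd (Nat.le_of_dvd hm.1 h0) (by omega)
    have hm1 : (m : Ω) ^ (p - 1) = 1 := by
      have h4 : ((m : ZMod p)) ^ (p - 1) = 1 := by
        apply ZMod.pow_card_sub_one_eq_one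
        intro h0
        rw [ZMod.natCast_eq_zero_iff] at h0
        exact absurd (Nat.le_of_dvd hm.1 h0) (by omega)
      have h5 := congrArg (ZMod.castHom (dvd_refl p) Ω) h4
      rwa [map_pow, map_natCast, map_one] at h5
    rw [eq_div_iff (pow_ne_zero _ hm0)]
    have h6 : (m : Ω) ^ (j - 1) * (m : Ω) ^ i = 1 := by
      rw [← pow_add, ← hm1]
      congr 1
      omega
    linear_combination (- y / x) ^ m * h6
  rw [h3, neg_div]

/-- Kummer's relations at the places prime to `a b c` -/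
theorem kummer_index_gen (hp2 : p ≠ 2) (hd : Module.finrank ℚ K < p) (h : FSol K p a b c)
    (hcp : CopAt K p a b c) (hψ : IsRedFam ψ) (i : ℕ) (hi : Even i)
    (him : mm K p c + 2 ≤ i) (hip : i + 3 ≤ p) (hB : ¬ (p : ℤ) ∣ (_root_.bernoulli i).num) :
    ∑ k ∈ ZZ ψ a b c, H10CQ.el p i (- ψ k b / ψ k a) / (1 - (- ψ k b / ψ k a) ^ p) = 0 := by
  classical
  have hpp : p.Prime := Fact.out
  have hodd : Odd p := hpp.odd_of_ne_two hp2
  obtain ⟨j, hj⟩ : ∃ j, p = i + j := ⟨p - i, by omega⟩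
  have hjodd : Odd j := by
    rcases Nat.even_or_odd j with he | ho
    · exfalso
      have : Even p := by rw [hj]; exact hi.add he
      exact (Nat.not_even_iff_odd.mpr hodd) this
    · exact ho
  have hj3 : 3 ≤ j := by omega
  have : IsCyclotomicExtension {p} ℚ (CyclotomicField p ℚ) :=
    CyclotomicField.isCyclotomicExtension p ℚ
  obtain ⟨ζ, hζ⟩ : ∃ ζ : 𝓞 (CyclotomicField p ℚ), IsPrimitiveRoot ζ p :=
    ⟨_, (IsCyclotomicExtension.zeta_spec p ℚ (CyclotomicField p ℚ)).toInteger_isPrimitiveRoot⟩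
  have hI := (exists_pow_ideal K p hp2 hd a b c h (CyclotomicField p ℚ) hζ).2
  obtain ⟨P, u, hu, hP1, hFP, hPf⟩ := nf_fact h hcp hψ
  have hk := kdl p (CyclotomicField p ℚ) hζ (nf K a b) P (mm K p c) hFP hP1 hI j hjodd hj3
    (by omega) (by
      have : p - j = i := by omega
      rwa [this])
  have h1 := KumG_DL h hu hPf j (by omega)
  rw [hk, map_zero, ← Finset.sum_sdiff (KumG_sub (ψ := ψ) (a := a) (b := b) (c := c))] at h1
  have h2 : ∑ k ∈ (Finset.univ.filter (fun k => ψ k c ≠ 0)) \ ZZ ψ a b c,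
      DL j (C (ψ k a) + X * C (ψ k b)) = 0 := by
    refine Finset.sum_eq_zero fun k hk => ?_
    rw [Finset.mem_sdiff, Finset.mem_filter, mem_ZZ] at hk
    obtain ⟨⟨-, hkc⟩, hk2⟩ := hk
    have hab := KumG_ab h k hkc
    by_cases ha : ψ k a = 0
    · rw [ha, zero_add] at hab
      rw [ha, C_0, zero_add, DL_mul j (by omega) _ _ (by simp) (by simpa using hab),
        DL_C j (by omega), DL_X j (by omega), add_zero]
    · by_cases hb : ψ k b = 0
      · rw [hb, C_0, mul_zero, add_zero, DL_C j (by omega)]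
      · exact (hk2 ⟨ha, hb, hkc⟩).elim
  rw [h2, zero_add] at h1
  have h3 : ∑ k ∈ ZZ ψ a b c, DL j (C (ψ k a) + X * C (ψ k b))
      = - ∑ k ∈ ZZ ψ a b c, H10CQ.el p i (- ψ k b / ψ k a) / (1 - (- ψ k b / ψ k a) ^ p) := by
    rw [← Finset.sum_neg_distrib]
    refine Finset.sum_congr rfl fun k hk => ?_
    rw [mem_ZZ] at hk
    rw [KumG_lin (p := p) i j (by omega) hj _ _ hk.1 (KumG_ab h k hk.2.2), el_eq_fl p i (by omega)]
  rw [h3] at h1
  exact neg_eq_zero.1 h1.symm

/-- the sum of the `1 / (1 - s_k)` is fixed by the Frobenius -/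
theorem frob_gen (h : FSol K p a b c) (hcp : CopAt K p a b c) (hψ : IsRedFam ψ) :
    ∑ k ∈ ZZ ψ a b c, 1 / (1 - (- ψ k b / ψ k a))
      = ∑ k ∈ ZZ ψ a b c, 1 / (1 - (- ψ k b / ψ k a) ^ p) := by
  classical
  have hpp : p.Prime := Fact.out
  have hs : FSol K p b a c := h.swap
  obtain ⟨P, u, hu, hP1, hFP, hPf⟩ := nf_fact hs hcp.swap hψ
  have h1 := KumG_DL hs hu hPf 1 le_rfl
  set t : ZMod p := DL 1 (P.map (Int.castRingHom (ZMod p))) with ht
  have htp : (ZMod.castHom (dvd_refl p) Ω t) ^ p = ZMod.castHom (dvd_refl p) Ω t := by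
    rw [← map_pow, ZMod.pow_card]
  have hval : ∀ k ∈ Finset.univ.filter (fun k => ψ k c ≠ 0),
      DL 1 (C (ψ k b) + X * C (ψ k a) : Polynomial Ω) = ψ k a / (ψ k b + ψ k a) := by
    intro k _
    exact KumG_DL_one _ _
  rw [Finset.sum_congr rfl hval] at h1
  rw [h1, sum_pow_char] at htp
  have hsub := KumG_sub (ψ := ψ) (a := a) (b := b) (c := c)
  rw [← Finset.sum_sdiff hsub, ← Finset.sum_sdiff hsub] at htp
  have hrest : ∑ k ∈ (Finset.univ.filter (fun k => ψ k c ≠ 0)) \ ZZ ψ a b c,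
      (ψ k a / (ψ k b + ψ k a)) ^ p
      = ∑ k ∈ (Finset.univ.filter (fun k => ψ k c ≠ 0)) \ ZZ ψ a b c,
        ψ k a / (ψ k b + ψ k a) := by
    refine Finset.sum_congr rfl fun k hk => ?_
    rw [Finset.mem_sdiff, Finset.mem_filter, mem_ZZ] at hk
    obtain ⟨⟨-, hkc⟩, hk2⟩ := hk
    by_cases ha : ψ k a = 0
    · rw [ha, zero_div, zero_pow hpp.ne_zero]
    · by_cases hb : ψ k b = 0
      · rw [hb, zero_add, div_self ha, one_pow]
      · exact (hk2 ⟨ha, hb, hkc⟩).elim
  rw [hrest, add_right_inj] at htp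
  have e1 : ∀ k ∈ ZZ ψ a b c, ψ k a / (ψ k b + ψ k a) = 1 / (1 - (- ψ k b / ψ k a)) := by
    intro k hk
    rw [mem_ZZ] at hk
    have h2 := hk.1
    have h3 := KumG_ab hs k hk.2.2
    have h4 : 1 - (- ψ k b / ψ k a) = (ψ k b + ψ k a) / ψ k a := by
      field_simp
      ring
    rw [h4, one_div_div]
  rw [Finset.sum_congr rfl e1] at htp
  rw [← htp]
  refine Finset.sum_congr rfl fun k hk => ?_
  rw [e1 k hk, div_pow, one_pow, sub_pow_char, one_pow]

/-- the data of any solution, at the places prime to `a b c` -/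
theorem datG_of_sol (hp2 : p ≠ 2) (hd : Module.finrank ℚ K < p) (h : FSol K p a b c)
    (hcp : CopAt K p a b c) (hψ : IsRedFam ψ) :
    DatG p (mm K p c) (ZZ ψ a b c) (fun k => - ψ k b / ψ k a) := by
  refine ⟨?_, ?_, ?_, ?_, ?_⟩
  · intro k hk
    rw [mem_ZZ] at hk
    exact div_ne_zero (neg_ne_zero.2 hk.2.1) hk.1
  · intro k hk h1
    rw [mem_ZZ] at hk
    change - ψ k b / ψ k a = 1 at h1
    rw [div_eq_iff hk.1, one_mul] at h1
    exact KumG_ab h k hk.2.2 (by rw [← h1]; ring)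
  · intro k hk
    rw [mem_ZZ] at hk
    exact dat_l1 hp2 hd h (ψ k) hk.1
  · intro i hi _ him hip hB
    exact kummer_index_gen hp2 hd h hcp hψ i hi him hip hB
  · exact frob_gen h hcp hψ

end

/-- `DatG` in terms of a family indexed by `Fin` -/
theorem DatG.fin {p e : ℕ} {Ω ι : Type*} [Field Ω] {Z : Finset ι} {s : ι → Ω} (h : DatG p e Z s) :
    ∃ f : Fin Z.card → ι, Function.Injective f ∧ (∀ k, f k ∈ Z) ∧ (∀ i ∈ Z, ∃ k, f k = i) ∧
      DatG p e Finset.univ (fun k => s (f k)) := by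
  classical
  let φ := Z.equivFin.symm
  have hsum : ∀ g : ι → Ω, ∑ k, g (φ k) = ∑ i ∈ Z, g i := by
    intro g
    rw [Equiv.sum_comp φ (fun x : Z => g x), Finset.sum_coe_sort Z g]
  refine ⟨fun k => φ k, ?_, fun k => (φ k).2, ?_, ?_⟩
  · intro x y hxy
    exact φ.injective (Subtype.ext hxy)
  · intro i hi
    exact ⟨φ.symm ⟨i, hi⟩, by simp⟩
  · refine ⟨fun k _ => h.ne0 _ (φ k).2, fun k _ => h.ne1 _ (φ k).2, fun k _ => h.l1 _ (φ k).2, ?_, ?_⟩
    · intro i hi hi2 him hip hB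
      rw [hsum (fun i' => H10CQ.el p i (s i') / (1 - s i' ^ p))]
      exact h.kum i hi hi2 him hip hB
    · rw [hsum (fun i' => 1 / (1 - s i')), hsum (fun i' => 1 / (1 - s i' ^ p))]
      exact h.frob

end H77FD
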