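import Pool.Agent.H77.FD.KumG
import Pool.Agent.H87.FD.Bridge

/-!
# Project FD, module KumLL: the relations `∑ LL m s_k = 0` at the places prime to `a b c`

`LL m = (t d/dt)^m (1/(1-t))` (`H69FD.LL`), `el p (p-1-m) s / (1 - s^p) = LL m s` in characteristic `p`.
-/

open Polynomial NumberField H9FC H45KC

namespace H77FD

/-- the relations of `DatG` in terms of `LL` -/
theorem DatG.kum_LL {p e : ℕ} [Fact p.Prime] {Ω ι : Type*} [Field Ω] [CharP Ω p] {Z : Finset ι}
    {s : ι → Ω} (h : DatG p e Z s) (m : ℕ) (hm : Even m) (hm2 : 2 ≤ m) (hmp : m + 3 ≤ p)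
    (hme : m + e + 3 ≤ p) (hB : ¬ (p : ℤ) ∣ (_root_.bernoulli (p - 1 - m)).num) :
    ∑ k ∈ Z, H69FD.LL m (s k) = 0 := by
  have hpp : p.Prime := Fact.out
  have hp2 : p ≠ 2 := by omega
  have hev : Even (p - 1 - m) := by
    have h1 : Even (p - 1) := hpp.even_sub_one hp2
    exact (Nat.even_sub (by omega)).mpr (iff_of_true h1 hm)
  have h1 := h.kum (p - 1 - m) hev (by
    rcases hev with ⟨t, ht⟩
    omega) (by omega) (by omega) hB
  rw [← h1]
  refine Finset.sum_congr rfl fun k hk => ?_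
  rw [H87FD.el_div_eq_LL' m (by omega) (by omega) (s k) (h.ne1 k hk)]

section
variable {K : Type*} [Field K] [NumberField K] {p : ℕ} [Fact p.Prime] {a b c : 𝓞 K}
  {Ω : Type*} [Field Ω] [CharP Ω p] {ψ : Fin (Module.finrank ℚ K) → (𝓞 K →+* Ω)}

/-- the relations of index `m ≤ (p-1)/2` for any solution -/
theorem kum_ZZ (hp : 2 * Module.finrank ℚ K + 3 ≤ p) (h : FSol K p a b c) (hcp : CopAt K p a b c)
    (hψ : IsRedFam ψ) (m : ℕ) (hm : Even m) (hm2 : 2 ≤ m) (hmp : 2 * m + 1 ≤ p)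
    (hB : ¬ (p : ℤ) ∣ (_root_.bernoulli (p - 1 - m)).num) :
    ∑ k ∈ ZZ ψ a b c, H69FD.LL m (- ψ k b / ψ k a) = 0 := by
  rcases Finset.eq_empty_or_nonempty (ZZ ψ a b c) with h0 | h0
  · rw [h0, Finset.sum_empty]
  · have hcard := card_ZZ K p a b c h hcp hψ
    have hpos := Finset.card_pos.2 h0
    have hD := datG_of_sol (by omega) (by omega) h hcp hψ
    exact hD.kum_LL m hm hm2 (by omega) (by omega) hB

end

end H77FD
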